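import Pool.Agent.NNr.R11_1_1_2.D0
import Pool.Agent.NNe.Slots

set_option linter.all false
set_option maxRecDepth 1000000
namespace Pool.Agent.NNr.R11_1_1_2

open Pool.Agent.NNe

def st0_30_0 : starCk (nat_lit 61) (nat_lit 5) (nat_lit 1) (nat_lit 2) (nat_lit 98) (nat_lit 174) (nat_lit 256) C0_30 = true := by decide +kernel
def sc0_30 : stCov (nat_lit 2) (nat_lit 174) (Rl.cons (nat_lit 174) (nat_lit 98) Rl.nil) C0_30 = true := by decide +kernel
def wf0_31 : wfC (nat_lit 61) (nat_lit 5) C0_31 = true := by decide +kernel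
def pl0_31 : plCk (nat_lit 61) (nat_lit 5) (nat_lit 11) (nat_lit 0) (nat_lit 0) (nat_lit 7) (nat_lit 34) (nat_lit 4) (nat_lit 31) nl1 CL0 = true := by decide +kernel
def st0_31_0 : starCk (nat_lit 61) (nat_lit 5) (nat_lit 1) (nat_lit 2) (nat_lit 80) (nat_lit 172) (nat_lit 16) C0_31 = true := by decide +kernel
def sc0_31 : stCov (nat_lit 1) (nat_lit 172) (Rl.cons (nat_lit 172) (nat_lit 80) Rl.nil) C0_31 = true := by decide +kernel
def wf0_32 : wfC (nat_lit 61) (nat_lit 5) C0_32 = true := by decide +kernel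
def pl0_32 : plCk (nat_lit 61) (nat_lit 5) (nat_lit 11) (nat_lit 0) (nat_lit 0) (nat_lit 7) (nat_lit 34) (nat_lit 4) (nat_lit 32) nl1 CL0 = true := by decide +kernel
def st0_32_0 : starCk (nat_lit 61) (nat_lit 5) (nat_lit 1) (nat_lit 2) (nat_lit 56) (nat_lit 172) (nat_lit 16) C0_32 = true := by decide +kernel
def sc0_32 : stCov (nat_lit 1) (nat_lit 172) (Rl.cons (nat_lit 172) (nat_lit 56) Rl.nil) C0_32 = true := by decide +kernel
def wf0_33 : wfC (nat_lit 61) (nat_lit 5) C0_33 = true := by decide +kernel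
def pl0_33 : plCk (nat_lit 61) (nat_lit 5) (nat_lit 11) (nat_lit 0) (nat_lit 0) (nat_lit 7) (nat_lit 34) (nat_lit 4) (nat_lit 33) nl1 CL0 = true := by decide +kernel
def st0_33_0 : starCk (nat_lit 61) (nat_lit 5) (nat_lit 1) (nat_lit 2) (nat_lit 96) (nat_lit 134) (nat_lit 4096) C0_33 = true := by decide +kernel
def sc0_33 : stCov (nat_lit 3) (nat_lit 134) (Rl.cons (nat_lit 134) (nat_lit 96) Rl.nil) C0_33 = true := by decide +kernel
def ti0_0 : tileCk (nat_lit 61) (nat_lit 5) (nat_lit 2) (nat_lit 2) (nat_lit 270) (nat_lit 11) (nat_lit 34) ZL0_0 CL0 = true := by decide +kernel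
def zl0_0 : zlOK (nat_lit 270) ZL0_0 = true := by decide +kernel
def ti0_1 : tileCk (nat_lit 61) (nat_lit 5) (nat_lit 2) (nat_lit 2) (nat_lit 271) (nat_lit 11) (nat_lit 34) ZL0_1 CL0 = true := by decide +kernel
def zl0_1 : zlOK (nat_lit 271) ZL0_1 = true := by decide +kernel

end Pool.Agent.NNr.R11_1_1_2
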