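import Pool.Agent.NNr.R11_1_1_2.D0
import Pool.Agent.NNr.R11_1_1_2.D1
import Pool.Agent.NNe.Slots

set_option linter.all false
set_option maxRecDepth 1000000
namespace Pool.Agent.NNr.R11_1_1_2

open Pool.Agent.NNe

def st1_5_0 : starCk (nat_lit 61) (nat_lit 7) (nat_lit 1) (nat_lit 3) (nat_lit 9) (nat_lit 105) (nat_lit 16) C1_5 = true := by decide +kernel
def sc1_5 : stCov (nat_lit 1) (nat_lit 105) (Rl.cons (nat_lit 105) (nat_lit 9) Rl.nil) C1_5 = true := by decide +kernel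
def wf1_6 : wfC (nat_lit 61) (nat_lit 7) C1_6 = true := by decide +kernel
def rf1_6 : rfCk (nat_lit 61) (nat_lit 5) (nat_lit 61) (nat_lit 7) (nat_lit 6) (nat_lit 262144) (nat_lit 6) TL1 CL0 CL1 = true := by decide +kernel
def st1_6_0 : starCk (nat_lit 61) (nat_lit 7) (nat_lit 1) (nat_lit 3) (nat_lit 156) (nat_lit 36) (nat_lit 1) C1_6 = true := by decide +kernel
def sc1_6 : stCov (nat_lit 0) (nat_lit 36) (Rl.cons (nat_lit 36) (nat_lit 156) Rl.nil) C1_6 = true := by decide +kernel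
def wf1_7 : wfC (nat_lit 61) (nat_lit 7) C1_7 = true := by decide +kernel
def rf1_7 : rfCk (nat_lit 61) (nat_lit 5) (nat_lit 61) (nat_lit 7) (nat_lit 6) (nat_lit 262144) (nat_lit 7) TL1 CL0 CL1 = true := by decide +kernel
def st1_7_0 : starCk (nat_lit 61) (nat_lit 7) (nat_lit 1) (nat_lit 3) (nat_lit 64) (nat_lit 335) (nat_lit 256) C1_7 = true := by decide +kernel
def sc1_7 : stCov (nat_lit 2) (nat_lit 335) (Rl.cons (nat_lit 335) (nat_lit 64) Rl.nil) C1_7 = true := by decide +kernel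
def wf1_8 : wfC (nat_lit 61) (nat_lit 7) C1_8 = true := by decide +kernel
def rf1_8 : rfCk (nat_lit 61) (nat_lit 5) (nat_lit 61) (nat_lit 7) (nat_lit 6) (nat_lit 262144) (nat_lit 8) TL1 CL0 CL1 = true := by decide +kernel
def st1_8_0 : starCk (nat_lit 61) (nat_lit 7) (nat_lit 1) (nat_lit 3) (nat_lit 8) (nat_lit 6) (nat_lit 1) C1_8 = true := by decide +kernel
def sc1_8 : stCov (nat_lit 0) (nat_lit 6) (Rl.cons (nat_lit 6) (nat_lit 8) Rl.nil) C1_8 = true := by decide +kernel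
def wf1_9 : wfC (nat_lit 61) (nat_lit 7) C1_9 = true := by decide +kernel
def rf1_9 : rfCk (nat_lit 61) (nat_lit 5) (nat_lit 61) (nat_lit 7) (nat_lit 6) (nat_lit 262144) (nat_lit 9) TL1 CL0 CL1 = true := by decide +kernel
def st1_9_0 : starCk (nat_lit 61) (nat_lit 7) (nat_lit 1) (nat_lit 3) (nat_lit 96) (nat_lit 9) (nat_lit 1) C1_9 = true := by decide +kernel
def sc1_9 : stCov (nat_lit 0) (nat_lit 9) (Rl.cons (nat_lit 9) (nat_lit 96) Rl.nil) C1_9 = true := by decide +kernel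
def wf1_10 : wfC (nat_lit 61) (nat_lit 7) C1_10 = true := by decide +kernel
def rf1_10 : rfCk (nat_lit 61) (nat_lit 5) (nat_lit 61) (nat_lit 7) (nat_lit 6) (nat_lit 262144) (nat_lit 10) TL1 CL0 CL1 = true := by decide +kernel
def st1_10_0 : starCk (nat_lit 61) (nat_lit 7) (nat_lit 1) (nat_lit 3) (nat_lit 64) (nat_lit 264) (nat_lit 16) C1_10 = true := by decide +kernel
def sc1_10 : stCov (nat_lit 1) (nat_lit 264) (Rl.cons (nat_lit 264) (nat_lit 64) Rl.nil) C1_10 = true := by decide +kernel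
def wf1_11 : wfC (nat_lit 61) (nat_lit 7) C1_11 = true := by decide +kernel
def rf1_11 : rfCk (nat_lit 61) (nat_lit 5) (nat_lit 61) (nat_lit 7) (nat_lit 6) (nat_lit 262144) (nat_lit 11) TL1 CL0 CL1 = true := by decide +kernel
def st1_11_0 : starCk (nat_lit 61) (nat_lit 7) (nat_lit 1) (nat_lit 3) (nat_lit 64) (nat_lit 404) (nat_lit 256) C1_11 = true := by decide +kernel
def sc1_11 : stCov (nat_lit 2) (nat_lit 404) (Rl.cons (nat_lit 404) (nat_lit 64) Rl.nil) C1_11 = true := by decide +kernel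
def wf1_12 : wfC (nat_lit 61) (nat_lit 7) C1_12 = true := by decide +kernel
def rf1_12 : rfCk (nat_lit 61) (nat_lit 5) (nat_lit 61) (nat_lit 7) (nat_lit 6) (nat_lit 262144) (nat_lit 12) TL1 CL0 CL1 = true := by decide +kernel
def st1_12_0 : starCk (nat_lit 61) (nat_lit 7) (nat_lit 1) (nat_lit 3) (nat_lit 16) (nat_lit 12) (nat_lit 1) C1_12 = true := by decide +kernel
def sc1_12 : stCov (nat_lit 0) (nat_lit 12) (Rl.cons (nat_lit 12) (nat_lit 16) Rl.nil) C1_12 = true := by decide +kernel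
def wf1_13 : wfC (nat_lit 61) (nat_lit 7) C1_13 = true := by decide +kernel
def rf1_13 : rfCk (nat_lit 61) (nat_lit 5) (nat_lit 61) (nat_lit 7) (nat_lit 6) (nat_lit 262144) (nat_lit 13) TL1 CL0 CL1 = true := by decide +kernel
def st1_13_0 : starCk (nat_lit 61) (nat_lit 7) (nat_lit 1) (nat_lit 3) (nat_lit 36) (nat_lit 264) (nat_lit 16) C1_13 = true := by decide +kernel
def sc1_13 : stCov (nat_lit 1) (nat_lit 264) (Rl.cons (nat_lit 264) (nat_lit 36) Rl.nil) C1_13 = true := by decide +kernel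
def wf1_14 : wfC (nat_lit 61) (nat_lit 7) C1_14 = true := by decide +kernel
def rf1_14 : rfCk (nat_lit 61) (nat_lit 5) (nat_lit 61) (nat_lit 7) (nat_lit 6) (nat_lit 262144) (nat_lit 14) TL1 CL0 CL1 = true := by decide +kernel
def st1_14_0 : starCk (nat_lit 61) (nat_lit 7) (nat_lit 1) (nat_lit 3) (nat_lit 64) (nat_lit 404) (nat_lit 256) C1_14 = true := by decide +kernel
def sc1_14 : stCov (nat_lit 2) (nat_lit 404) (Rl.cons (nat_lit 404) (nat_lit 64) Rl.nil) C1_14 = true := by decide +kernel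
def wf1_15 : wfC (nat_lit 61) (nat_lit 7) C1_15 = true := by decide +kernel
def rf1_15 : rfCk (nat_lit 61) (nat_lit 5) (nat_lit 61) (nat_lit 7) (nat_lit 6) (nat_lit 262144) (nat_lit 15) TL1 CL0 CL1 = true := by decide +kernel
def st1_15_0 : starCk (nat_lit 61) (nat_lit 7) (nat_lit 1) (nat_lit 3) (nat_lit 16) (nat_lit 12) (nat_lit 1) C1_15 = true := by decide +kernel
def sc1_15 : stCov (nat_lit 0) (nat_lit 12) (Rl.cons (nat_lit 12) (nat_lit 16) Rl.nil) C1_15 = true := by decide +kernel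
def wf1_16 : wfC (nat_lit 61) (nat_lit 7) C1_16 = true := by decide +kernel
def rf1_16 : rfCk (nat_lit 61) (nat_lit 5) (nat_lit 61) (nat_lit 7) (nat_lit 6) (nat_lit 262144) (nat_lit 16) TL1 CL0 CL1 = true := by decide +kernel
def st1_16_0 : starCk (nat_lit 61) (nat_lit 7) (nat_lit 1) (nat_lit 3) (nat_lit 148) (nat_lit 192) (nat_lit 256) C1_16 = true := by decide +kernel
def sc1_16 : stCov (nat_lit 2) (nat_lit 192) (Rl.cons (nat_lit 192) (nat_lit 148) Rl.nil) C1_16 = true := by decide +kernel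
def wf1_17 : wfC (nat_lit 61) (nat_lit 7) C1_17 = true := by decide +kernel
def rf1_17 : rfCk (nat_lit 61) (nat_lit 5) (nat_lit 61) (nat_lit 7) (nat_lit 6) (nat_lit 262144) (nat_lit 17) TL1 CL0 CL1 = true := by decide +kernel
def st1_17_0 : starCk (nat_lit 61) (nat_lit 7) (nat_lit 1) (nat_lit 3) (nat_lit 64) (nat_lit 404) (nat_lit 256) C1_17 = true := by decide +kernel
def sc1_17 : stCov (nat_lit 2) (nat_lit 404) (Rl.cons (nat_lit 404) (nat_lit 64) Rl.nil) C1_17 = true := by decide +kernel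
def wf1_18 : wfC (nat_lit 61) (nat_lit 7) C1_18 = true := by decide +kernel
def rf1_18 : rfCk (nat_lit 61) (nat_lit 5) (nat_lit 61) (nat_lit 7) (nat_lit 6) (nat_lit 262144) (nat_lit 18) TL1 CL0 CL1 = true := by decide +kernel
def st1_18_0 : starCk (nat_lit 61) (nat_lit 7) (nat_lit 1) (nat_lit 3) (nat_lit 12) (nat_lit 28) (nat_lit 16) C1_18 = true := by decide +kernel
def sc1_18 : stCov (nat_lit 1) (nat_lit 28) (Rl.cons (nat_lit 28) (nat_lit 12) Rl.nil) C1_18 = true := by decide +kernel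
def wf1_19 : wfC (nat_lit 61) (nat_lit 7) C1_19 = true := by decide +kernel
def rf1_19 : rfCk (nat_lit 61) (nat_lit 5) (nat_lit 61) (nat_lit 7) (nat_lit 6) (nat_lit 262144) (nat_lit 19) TL1 CL0 CL1 = true := by decide +kernel
def st1_19_0 : starCk (nat_lit 61) (nat_lit 7) (nat_lit 1) (nat_lit 3) (nat_lit 21) (nat_lit 202) (nat_lit 16) C1_19 = true := by decide +kernel
def sc1_19 : stCov (nat_lit 1) (nat_lit 202) (Rl.cons (nat_lit 202) (nat_lit 21) Rl.nil) C1_19 = true := by decide +kernel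
def wf1_20 : wfC (nat_lit 61) (nat_lit 7) C1_20 = true := by decide +kernel
def rf1_20 : rfCk (nat_lit 61) (nat_lit 5) (nat_lit 61) (nat_lit 7) (nat_lit 6) (nat_lit 262144) (nat_lit 20) TL1 CL0 CL1 = true := by decide +kernel
def st1_20_0 : starCk (nat_lit 61) (nat_lit 7) (nat_lit 1) (nat_lit 3) (nat_lit 12) (nat_lit 28) (nat_lit 16) C1_20 = true := by decide +kernel
def sc1_20 : stCov (nat_lit 1) (nat_lit 28) (Rl.cons (nat_lit 28) (nat_lit 12) Rl.nil) C1_20 = true := by decide +kernel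
def wf1_21 : wfC (nat_lit 61) (nat_lit 7) C1_21 = true := by decide +kernel
def rf1_21 : rfCk (nat_lit 61) (nat_lit 5) (nat_lit 61) (nat_lit 7) (nat_lit 6) (nat_lit 262144) (nat_lit 21) TL1 CL0 CL1 = true := by decide +kernel
def st1_21_0 : starCk (nat_lit 61) (nat_lit 7) (nat_lit 1) (nat_lit 3) (nat_lit 32) (nat_lit 133) (nat_lit 256) C1_21 = true := by decide +kernel
def sc1_21 : stCov (nat_lit 2) (nat_lit 133) (Rl.cons (nat_lit 133) (nat_lit 32) Rl.nil) C1_21 = true := by decide +kernel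
def wf1_22 : wfC (nat_lit 61) (nat_lit 7) C1_22 = true := by decide +kernel
def rf1_22 : rfCk (nat_lit 61) (nat_lit 5) (nat_lit 61) (nat_lit 7) (nat_lit 6) (nat_lit 262144) (nat_lit 22) TL1 CL0 CL1 = true := by decide +kernel
def st1_22_0 : starCk (nat_lit 61) (nat_lit 7) (nat_lit 1) (nat_lit 3) (nat_lit 12) (nat_lit 28) (nat_lit 16) C1_22 = true := by decide +kernel
def sc1_22 : stCov (nat_lit 1) (nat_lit 28) (Rl.cons (nat_lit 28) (nat_lit 12) Rl.nil) C1_22 = true := by decide +kernel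
def wf1_23 : wfC (nat_lit 61) (nat_lit 7) C1_23 = true := by decide +kernel
def rf1_23 : rfCk (nat_lit 61) (nat_lit 5) (nat_lit 61) (nat_lit 7) (nat_lit 6) (nat_lit 262144) (nat_lit 23) TL1 CL0 CL1 = true := by decide +kernel

end Pool.Agent.NNr.R11_1_1_2
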