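import Pool.Agent.NNr.R11_1_1_2.D0
import Pool.Agent.NNr.R11_1_1_2.D1
import Pool.Agent.NNe.Slots

set_option linter.all false
set_option maxRecDepth 1000000
namespace Pool.Agent.NNr.R11_1_1_2

open Pool.Agent.NNe

def st1_23_0 : starCk (nat_lit 61) (nat_lit 7) (nat_lit 1) (nat_lit 3) (nat_lit 6) (nat_lit 28) (nat_lit 16) C1_23 = true := by decide +kernel
def sc1_23 : stCov (nat_lit 1) (nat_lit 28) (Rl.cons (nat_lit 28) (nat_lit 6) Rl.nil) C1_23 = true := by decide +kernel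
def wf1_24 : wfC (nat_lit 61) (nat_lit 7) C1_24 = true := by decide +kernel
def rf1_24 : rfCk (nat_lit 61) (nat_lit 5) (nat_lit 61) (nat_lit 7) (nat_lit 6) (nat_lit 262144) (nat_lit 24) TL1 CL0 CL1 = true := by decide +kernel
def st1_24_0 : starCk (nat_lit 61) (nat_lit 7) (nat_lit 1) (nat_lit 3) (nat_lit 8) (nat_lit 6) (nat_lit 1) C1_24 = true := by decide +kernel
def sc1_24 : stCov (nat_lit 0) (nat_lit 6) (Rl.cons (nat_lit 6) (nat_lit 8) Rl.nil) C1_24 = true := by decide +kernel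
def wf1_25 : wfC (nat_lit 61) (nat_lit 7) C1_25 = true := by decide +kernel
def rf1_25 : rfCk (nat_lit 61) (nat_lit 5) (nat_lit 61) (nat_lit 7) (nat_lit 6) (nat_lit 262144) (nat_lit 25) TL1 CL0 CL1 = true := by decide +kernel
def st1_25_0 : starCk (nat_lit 61) (nat_lit 7) (nat_lit 1) (nat_lit 3) (nat_lit 224) (nat_lit 416) (nat_lit 4096) C1_25 = true := by decide +kernel
def sc1_25 : stCov (nat_lit 3) (nat_lit 416) (Rl.cons (nat_lit 416) (nat_lit 224) Rl.nil) C1_25 = true := by decide +kernel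
def wf1_26 : wfC (nat_lit 61) (nat_lit 7) C1_26 = true := by decide +kernel
def rf1_26 : rfCk (nat_lit 61) (nat_lit 5) (nat_lit 61) (nat_lit 7) (nat_lit 6) (nat_lit 262144) (nat_lit 26) TL1 CL0 CL1 = true := by decide +kernel
def st1_26_0 : starCk (nat_lit 61) (nat_lit 7) (nat_lit 1) (nat_lit 3) (nat_lit 66) (nat_lit 0) (nat_lit 16) C1_26 = true := by decide +kernel
def sc1_26 : stCov (nat_lit 1) (nat_lit 0) (Rl.cons (nat_lit 0) (nat_lit 66) Rl.nil) C1_26 = true := by decide +kernel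
def wf1_27 : wfC (nat_lit 61) (nat_lit 7) C1_27 = true := by decide +kernel
def rf1_27 : rfCk (nat_lit 61) (nat_lit 5) (nat_lit 61) (nat_lit 7) (nat_lit 6) (nat_lit 262144) (nat_lit 27) TL1 CL0 CL1 = true := by decide +kernel
def st1_27_0 : starCk (nat_lit 61) (nat_lit 7) (nat_lit 1) (nat_lit 3) (nat_lit 132) (nat_lit 195) (nat_lit 4096) C1_27 = true := by decide +kernel
def sc1_27 : stCov (nat_lit 3) (nat_lit 195) (Rl.cons (nat_lit 195) (nat_lit 132) Rl.nil) C1_27 = true := by decide +kernel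
def wf1_28 : wfC (nat_lit 61) (nat_lit 7) C1_28 = true := by decide +kernel
def rf1_28 : rfCk (nat_lit 61) (nat_lit 5) (nat_lit 61) (nat_lit 7) (nat_lit 6) (nat_lit 262144) (nat_lit 28) TL1 CL0 CL1 = true := by decide +kernel
def st1_28_0 : starCk (nat_lit 61) (nat_lit 7) (nat_lit 1) (nat_lit 3) (nat_lit 66) (nat_lit 256) (nat_lit 16) C1_28 = true := by decide +kernel
def sc1_28 : stCov (nat_lit 1) (nat_lit 256) (Rl.cons (nat_lit 256) (nat_lit 66) Rl.nil) C1_28 = true := by decide +kernel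
def wf1_29 : wfC (nat_lit 61) (nat_lit 7) C1_29 = true := by decide +kernel
def rf1_29 : rfCk (nat_lit 61) (nat_lit 5) (nat_lit 61) (nat_lit 7) (nat_lit 6) (nat_lit 262144) (nat_lit 29) TL1 CL0 CL1 = true := by decide +kernel
def st1_29_0 : starCk (nat_lit 61) (nat_lit 7) (nat_lit 1) (nat_lit 3) (nat_lit 122) (nat_lit 73) (nat_lit 1) C1_29 = true := by decide +kernel
def sc1_29 : stCov (nat_lit 0) (nat_lit 73) (Rl.cons (nat_lit 73) (nat_lit 122) Rl.nil) C1_29 = true := by decide +kernel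
def wf1_30 : wfC (nat_lit 61) (nat_lit 7) C1_30 = true := by decide +kernel
def rf1_30 : rfCk (nat_lit 61) (nat_lit 5) (nat_lit 61) (nat_lit 7) (nat_lit 6) (nat_lit 262144) (nat_lit 30) TL1 CL0 CL1 = true := by decide +kernel
def st1_30_0 : starCk (nat_lit 61) (nat_lit 7) (nat_lit 1) (nat_lit 3) (nat_lit 152) (nat_lit 256) (nat_lit 256) C1_30 = true := by decide +kernel
def sc1_30 : stCov (nat_lit 2) (nat_lit 256) (Rl.cons (nat_lit 256) (nat_lit 152) Rl.nil) C1_30 = true := by decide +kernel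
def wf1_31 : wfC (nat_lit 61) (nat_lit 7) C1_31 = true := by decide +kernel
def rf1_31 : rfCk (nat_lit 61) (nat_lit 5) (nat_lit 61) (nat_lit 7) (nat_lit 6) (nat_lit 262144) (nat_lit 31) TL1 CL0 CL1 = true := by decide +kernel
def st1_31_0 : starCk (nat_lit 61) (nat_lit 7) (nat_lit 1) (nat_lit 3) (nat_lit 94) (nat_lit 258) (nat_lit 16) C1_31 = true := by decide +kernel
def sc1_31 : stCov (nat_lit 1) (nat_lit 258) (Rl.cons (nat_lit 258) (nat_lit 94) Rl.nil) C1_31 = true := by decide +kernel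
def wf1_32 : wfC (nat_lit 61) (nat_lit 7) C1_32 = true := by decide +kernel
def rf1_32 : rfCk (nat_lit 61) (nat_lit 5) (nat_lit 61) (nat_lit 7) (nat_lit 6) (nat_lit 262144) (nat_lit 32) TL1 CL0 CL1 = true := by decide +kernel
def st1_32_0 : starCk (nat_lit 61) (nat_lit 7) (nat_lit 1) (nat_lit 3) (nat_lit 73) (nat_lit 258) (nat_lit 16) C1_32 = true := by decide +kernel
def sc1_32 : stCov (nat_lit 1) (nat_lit 258) (Rl.cons (nat_lit 258) (nat_lit 73) Rl.nil) C1_32 = true := by decide +kernel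
def wf1_33 : wfC (nat_lit 61) (nat_lit 7) C1_33 = true := by decide +kernel
def rf1_33 : rfCk (nat_lit 61) (nat_lit 5) (nat_lit 61) (nat_lit 7) (nat_lit 6) (nat_lit 262144) (nat_lit 33) TL1 CL0 CL1 = true := by decide +kernel
def st1_33_0 : starCk (nat_lit 61) (nat_lit 7) (nat_lit 1) (nat_lit 3) (nat_lit 132) (nat_lit 195) (nat_lit 4096) C1_33 = true := by decide +kernel
def sc1_33 : stCov (nat_lit 3) (nat_lit 195) (Rl.cons (nat_lit 195) (nat_lit 132) Rl.nil) C1_33 = true := by decide +kernel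

end Pool.Agent.NNr.R11_1_1_2
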