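import Pool.Agent.NNr.R11_1_1_2.D1

set_option linter.all false
set_option maxRecDepth 1000000
namespace Pool.Agent.NNr.R11_1_1_2

open Pool.Agent.NNe

def ti1_0 : tileCk (nat_lit 61) (nat_lit 7) (nat_lit 2) (nat_lit 3) (nat_lit 260) (nat_lit 11) (nat_lit 34) ZL1_0 CL1 = true := by decide +kernel
def zl1_0 : zlOK (nat_lit 260) ZL1_0 = true := by decide +kernel
def ti1_1 : tileCk (nat_lit 61) (nat_lit 7) (nat_lit 2) (nat_lit 3) (nat_lit 260) (nat_lit 11) (nat_lit 34) ZL1_1 CL1 = true := by decide +kernel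
def zl1_1 : zlOK (nat_lit 260) ZL1_1 = true := by decide +kernel
def ti1_2 : tileCk (nat_lit 61) (nat_lit 7) (nat_lit 2) (nat_lit 3) (nat_lit 458) (nat_lit 11) (nat_lit 34) ZL1_2 CL1 = true := by decide +kernel
def zl1_2 : zlOK (nat_lit 458) ZL1_2 = true := by decide +kernel
def tc1_0 : tiCov (nat_lit 1) (nat_lit 0) ZZ1 C1_0 = true := by decide +kernel
def tc1_1 : tiCov (nat_lit 1) (nat_lit 1) ZZ1 C1_1 = true := by decide +kernel
def tc1_2 : tiCov (nat_lit 1) (nat_lit 2) ZZ1 C1_2 = true := by decide +kernel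
def tc1_3 : tiCov (nat_lit 1) (nat_lit 3) ZZ1 C1_3 = true := by decide +kernel
def tc1_4 : tiCov (nat_lit 1) (nat_lit 4) ZZ1 C1_4 = true := by decide +kernel
def tc1_5 : tiCov (nat_lit 1) (nat_lit 5) ZZ1 C1_5 = true := by decide +kernel
def tc1_6 : tiCov (nat_lit 1) (nat_lit 6) ZZ1 C1_6 = true := by decide +kernel
def tc1_7 : tiCov (nat_lit 1) (nat_lit 7) ZZ1 C1_7 = true := by decide +kernel
def tc1_8 : tiCov (nat_lit 1) (nat_lit 8) ZZ1 C1_8 = true := by decide +kernel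
def tc1_9 : tiCov (nat_lit 1) (nat_lit 9) ZZ1 C1_9 = true := by decide +kernel
def tc1_10 : tiCov (nat_lit 1) (nat_lit 10) ZZ1 C1_10 = true := by decide +kernel
def tc1_11 : tiCov (nat_lit 1) (nat_lit 11) ZZ1 C1_11 = true := by decide +kernel
def tc1_12 : tiCov (nat_lit 1) (nat_lit 12) ZZ1 C1_12 = true := by decide +kernel
def tc1_13 : tiCov (nat_lit 1) (nat_lit 13) ZZ1 C1_13 = true := by decide +kernel
def tc1_14 : tiCov (nat_lit 1) (nat_lit 14) ZZ1 C1_14 = true := by decide +kernel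
def tc1_15 : tiCov (nat_lit 1) (nat_lit 15) ZZ1 C1_15 = true := by decide +kernel
def tc1_16 : tiCov (nat_lit 1) (nat_lit 16) ZZ1 C1_16 = true := by decide +kernel
def tc1_17 : tiCov (nat_lit 1) (nat_lit 17) ZZ1 C1_17 = true := by decide +kernel
def tc1_18 : tiCov (nat_lit 1) (nat_lit 18) ZZ1 C1_18 = true := by decide +kernel
def tc1_19 : tiCov (nat_lit 1) (nat_lit 19) ZZ1 C1_19 = true := by decide +kernel
def tc1_20 : tiCov (nat_lit 1) (nat_lit 20) ZZ1 C1_20 = true := by decide +kernel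
def tc1_21 : tiCov (nat_lit 1) (nat_lit 21) ZZ1 C1_21 = true := by decide +kernel
def tc1_22 : tiCov (nat_lit 1) (nat_lit 22) ZZ1 C1_22 = true := by decide +kernel
def tc1_23 : tiCov (nat_lit 1) (nat_lit 23) ZZ1 C1_23 = true := by decide +kernel
def tc1_24 : tiCov (nat_lit 1) (nat_lit 24) ZZ1 C1_24 = true := by decide +kernel
def tc1_25 : tiCov (nat_lit 1) (nat_lit 25) ZZ1 C1_25 = true := by decide +kernel
def tc1_26 : tiCov (nat_lit 1) (nat_lit 26) ZZ1 C1_26 = true := by decide +kernel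
def tc1_27 : tiCov (nat_lit 1) (nat_lit 27) ZZ1 C1_27 = true := by decide +kernel
def tc1_28 : tiCov (nat_lit 1) (nat_lit 28) ZZ1 C1_28 = true := by decide +kernel
def tc1_29 : tiCov (nat_lit 1) (nat_lit 29) ZZ1 C1_29 = true := by decide +kernel

end Pool.Agent.NNr.R11_1_1_2
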