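import Pool.Agent.NNr.R11_1_1_2.D1
import Pool.Agent.NNr.R11_1_1_2.D2

set_option linter.all false
set_option maxRecDepth 1000000
namespace Pool.Agent.NNr.R11_1_1_2

open Pool.Agent.NNe

def tc1_30 : tiCov (nat_lit 1) (nat_lit 30) ZZ1 C1_30 = true := by decide +kernel
def tc1_31 : tiCov (nat_lit 1) (nat_lit 31) ZZ1 C1_31 = true := by decide +kernel
def tc1_32 : tiCov (nat_lit 1) (nat_lit 32) ZZ1 C1_32 = true := by decide +kernel
def tc1_33 : tiCov (nat_lit 1) (nat_lit 33) ZZ1 C1_33 = true := by decide +kernel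
def wf2_0 : wfC (nat_lit 45) (nat_lit 9) C2_0 = true := by decide +kernel
def rf2_0 : rfCk (nat_lit 61) (nat_lit 7) (nat_lit 45) (nat_lit 9) (nat_lit 9) (nat_lit 0) (nat_lit 0) TL2 CL1 CL2 = true := by decide +kernel
def st2_0_0 : starCk (nat_lit 45) (nat_lit 9) (nat_lit 1) (nat_lit 4) (nat_lit 30) (nat_lit 0) (nat_lit 256) C2_0 = true := by decide +kernel
def sc2_0 : stCov (nat_lit 2) (nat_lit 0) (Rl.cons (nat_lit 0) (nat_lit 30) Rl.nil) C2_0 = true := by decide +kernel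
def wf2_1 : wfC (nat_lit 45) (nat_lit 9) C2_1 = true := by decide +kernel
def rf2_1 : rfCk (nat_lit 61) (nat_lit 7) (nat_lit 45) (nat_lit 9) (nat_lit 9) (nat_lit 0) (nat_lit 1) TL2 CL1 CL2 = true := by decide +kernel
def st2_1_0 : starCk (nat_lit 45) (nat_lit 9) (nat_lit 1) (nat_lit 4) (nat_lit 4) (nat_lit 0) (nat_lit 16) C2_1 = true := by decide +kernel
def sc2_1 : stCov (nat_lit 1) (nat_lit 0) (Rl.cons (nat_lit 0) (nat_lit 4) Rl.nil) C2_1 = true := by decide +kernel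
def wf2_2 : wfC (nat_lit 45) (nat_lit 9) C2_2 = true := by decide +kernel
def rf2_2 : rfCk (nat_lit 61) (nat_lit 7) (nat_lit 45) (nat_lit 9) (nat_lit 9) (nat_lit 0) (nat_lit 2) TL2 CL1 CL2 = true := by decide +kernel
def st2_2_0 : starCk (nat_lit 45) (nat_lit 9) (nat_lit 1) (nat_lit 4) (nat_lit 12) (nat_lit 0) (nat_lit 16) C2_2 = true := by decide +kernel
def sc2_2 : stCov (nat_lit 1) (nat_lit 0) (Rl.cons (nat_lit 0) (nat_lit 12) Rl.nil) C2_2 = true := by decide +kernel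
def wf2_3 : wfC (nat_lit 45) (nat_lit 9) C2_3 = true := by decide +kernel
def rf2_3 : rfCk (nat_lit 61) (nat_lit 7) (nat_lit 45) (nat_lit 9) (nat_lit 9) (nat_lit 0) (nat_lit 3) TL2 CL1 CL2 = true := by decide +kernel
def st2_3_0 : starCk (nat_lit 45) (nat_lit 9) (nat_lit 1) (nat_lit 4) (nat_lit 4) (nat_lit 32) (nat_lit 256) C2_3 = true := by decide +kernel
def sc2_3 : stCov (nat_lit 2) (nat_lit 32) (Rl.cons (nat_lit 32) (nat_lit 4) Rl.nil) C2_3 = true := by decide +kernel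
def wf2_4 : wfC (nat_lit 45) (nat_lit 9) C2_4 = true := by decide +kernel
def rf2_4 : rfCk (nat_lit 61) (nat_lit 7) (nat_lit 45) (nat_lit 9) (nat_lit 9) (nat_lit 0) (nat_lit 4) TL2 CL1 CL2 = true := by decide +kernel
def sc2_4 : stCov (nat_lit 1) (nat_lit 0) Rl.nil C2_4 = true := by decide +kernel
def wf2_5 : wfC (nat_lit 45) (nat_lit 9) C2_5 = true := by decide +kernel
def rf2_5 : rfCk (nat_lit 61) (nat_lit 7) (nat_lit 45) (nat_lit 9) (nat_lit 9) (nat_lit 0) (nat_lit 5) TL2 CL1 CL2 = true := by decide +kernel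
def st2_5_0 : starCk (nat_lit 45) (nat_lit 9) (nat_lit 1) (nat_lit 4) (nat_lit 4) (nat_lit 12) (nat_lit 16) C2_5 = true := by decide +kernel
def sc2_5 : stCov (nat_lit 1) (nat_lit 12) (Rl.cons (nat_lit 12) (nat_lit 4) Rl.nil) C2_5 = true := by decide +kernel
def wf2_6 : wfC (nat_lit 45) (nat_lit 9) C2_6 = true := by decide +kernel
def rf2_6 : rfCk (nat_lit 61) (nat_lit 7) (nat_lit 45) (nat_lit 9) (nat_lit 9) (nat_lit 0) (nat_lit 6) TL2 CL1 CL2 = true := by decide +kernel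
def st2_6_0 : starCk (nat_lit 45) (nat_lit 9) (nat_lit 1) (nat_lit 4) (nat_lit 29) (nat_lit 12) (nat_lit 1) C2_6 = true := by decide +kernel
def sc2_6 : stCov (nat_lit 0) (nat_lit 12) (Rl.cons (nat_lit 12) (nat_lit 29) Rl.nil) C2_6 = true := by decide +kernel
def wf2_7 : wfC (nat_lit 45) (nat_lit 9) C2_7 = true := by decide +kernel
def rf2_7 : rfCk (nat_lit 61) (nat_lit 7) (nat_lit 45) (nat_lit 9) (nat_lit 9) (nat_lit 0) (nat_lit 7) TL2 CL1 CL2 = true := by decide +kernel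
def st2_7_0 : starCk (nat_lit 45) (nat_lit 9) (nat_lit 1) (nat_lit 4) (nat_lit 8) (nat_lit 88) (nat_lit 256) C2_7 = true := by decide +kernel
def sc2_7 : stCov (nat_lit 2) (nat_lit 88) (Rl.cons (nat_lit 88) (nat_lit 8) Rl.nil) C2_7 = true := by decide +kernel
def wf2_8 : wfC (nat_lit 45) (nat_lit 9) C2_8 = true := by decide +kernel
def rf2_8 : rfCk (nat_lit 61) (nat_lit 7) (nat_lit 45) (nat_lit 9) (nat_lit 9) (nat_lit 0) (nat_lit 8) TL2 CL1 CL2 = true := by decide +kernel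
def sc2_8 : stCov (nat_lit 1) (nat_lit 0) Rl.nil C2_8 = true := by decide +kernel
def wf2_9 : wfC (nat_lit 45) (nat_lit 9) C2_9 = true := by decide +kernel
def rf2_9 : rfCk (nat_lit 61) (nat_lit 7) (nat_lit 45) (nat_lit 9) (nat_lit 9) (nat_lit 0) (nat_lit 9) TL2 CL1 CL2 = true := by decide +kernel
def st2_9_0 : starCk (nat_lit 45) (nat_lit 9) (nat_lit 1) (nat_lit 4) (nat_lit 8) (nat_lit 4) (nat_lit 1) C2_9 = true := by decide +kernel
def sc2_9 : stCov (nat_lit 0) (nat_lit 4) (Rl.cons (nat_lit 4) (nat_lit 8) Rl.nil) C2_9 = true := by decide +kernel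
def wf2_10 : wfC (nat_lit 45) (nat_lit 9) C2_10 = true := by decide +kernel
def rf2_10 : rfCk (nat_lit 61) (nat_lit 7) (nat_lit 45) (nat_lit 9) (nat_lit 9) (nat_lit 0) (nat_lit 10) TL2 CL1 CL2 = true := by decide +kernel
def st2_10_0 : starCk (nat_lit 45) (nat_lit 9) (nat_lit 1) (nat_lit 4) (nat_lit 24) (nat_lit 62) (nat_lit 16) C2_10 = true := by decide +kernel
def sc2_10 : stCov (nat_lit 1) (nat_lit 62) (Rl.cons (nat_lit 62) (nat_lit 24) Rl.nil) C2_10 = true := by decide +kernel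
def wf2_11 : wfC (nat_lit 45) (nat_lit 9) C2_11 = true := by decide +kernel
def rf2_11 : rfCk (nat_lit 61) (nat_lit 7) (nat_lit 45) (nat_lit 9) (nat_lit 9) (nat_lit 0) (nat_lit 11) TL2 CL1 CL2 = true := by decide +kernel
def st2_11_0 : starCk (nat_lit 45) (nat_lit 9) (nat_lit 1) (nat_lit 4) (nat_lit 8) (nat_lit 112) (nat_lit 256) C2_11 = true := by decide +kernel
def sc2_11 : stCov (nat_lit 2) (nat_lit 112) (Rl.cons (nat_lit 112) (nat_lit 8) Rl.nil) C2_11 = true := by decide +kernel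
def wf2_12 : wfC (nat_lit 45) (nat_lit 9) C2_12 = true := by decide +kernel
def rf2_12 : rfCk (nat_lit 61) (nat_lit 7) (nat_lit 45) (nat_lit 9) (nat_lit 9) (nat_lit 0) (nat_lit 12) TL2 CL1 CL2 = true := by decide +kernel
def sc2_12 : stCov (nat_lit 1) (nat_lit 0) Rl.nil C2_12 = true := by decide +kernel
def wf2_13 : wfC (nat_lit 45) (nat_lit 9) C2_13 = true := by decide +kernel
def rf2_13 : rfCk (nat_lit 61) (nat_lit 7) (nat_lit 45) (nat_lit 9) (nat_lit 9) (nat_lit 0) (nat_lit 13) TL2 CL1 CL2 = true := by decide +kernel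
def st2_13_0 : starCk (nat_lit 45) (nat_lit 9) (nat_lit 1) (nat_lit 4) (nat_lit 12) (nat_lit 62) (nat_lit 16) C2_13 = true := by decide +kernel
def sc2_13 : stCov (nat_lit 1) (nat_lit 62) (Rl.cons (nat_lit 62) (nat_lit 12) Rl.nil) C2_13 = true := by decide +kernel
def wf2_14 : wfC (nat_lit 45) (nat_lit 9) C2_14 = true := by decide +kernel
def rf2_14 : rfCk (nat_lit 61) (nat_lit 7) (nat_lit 45) (nat_lit 9) (nat_lit 9) (nat_lit 0) (nat_lit 14) TL2 CL1 CL2 = true := by decide +kernel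
def st2_14_0 : starCk (nat_lit 45) (nat_lit 9) (nat_lit 1) (nat_lit 4) (nat_lit 8) (nat_lit 112) (nat_lit 256) C2_14 = true := by decide +kernel
def sc2_14 : stCov (nat_lit 2) (nat_lit 112) (Rl.cons (nat_lit 112) (nat_lit 8) Rl.nil) C2_14 = true := by decide +kernel
def wf2_15 : wfC (nat_lit 45) (nat_lit 9) C2_15 = true := by decide +kernel
def rf2_15 : rfCk (nat_lit 61) (nat_lit 7) (nat_lit 45) (nat_lit 9) (nat_lit 9) (nat_lit 0) (nat_lit 15) TL2 CL1 CL2 = true := by decide +kernel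
def sc2_15 : stCov (nat_lit 1) (nat_lit 0) Rl.nil C2_15 = true := by decide +kernel
def wf2_16 : wfC (nat_lit 45) (nat_lit 9) C2_16 = true := by decide +kernel
def rf2_16 : rfCk (nat_lit 61) (nat_lit 7) (nat_lit 45) (nat_lit 9) (nat_lit 9) (nat_lit 0) (nat_lit 16) TL2 CL1 CL2 = true := by decide +kernel
def st2_16_0 : starCk (nat_lit 45) (nat_lit 9) (nat_lit 1) (nat_lit 4) (nat_lit 32) (nat_lit 41) (nat_lit 256) C2_16 = true := by decide +kernel
def sc2_16 : stCov (nat_lit 2) (nat_lit 41) (Rl.cons (nat_lit 41) (nat_lit 32) Rl.nil) C2_16 = true := by decide +kernel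
def wf2_17 : wfC (nat_lit 45) (nat_lit 9) C2_17 = true := by decide +kernel
def rf2_17 : rfCk (nat_lit 61) (nat_lit 7) (nat_lit 45) (nat_lit 9) (nat_lit 9) (nat_lit 0) (nat_lit 17) TL2 CL1 CL2 = true := by decide +kernel
def st2_17_0 : starCk (nat_lit 45) (nat_lit 9) (nat_lit 1) (nat_lit 4) (nat_lit 8) (nat_lit 112) (nat_lit 256) C2_17 = true := by decide +kernel
def sc2_17 : stCov (nat_lit 2) (nat_lit 112) (Rl.cons (nat_lit 112) (nat_lit 8) Rl.nil) C2_17 = true := by decide +kernel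
def wf2_18 : wfC (nat_lit 45) (nat_lit 9) C2_18 = true := by decide +kernel
def rf2_18 : rfCk (nat_lit 61) (nat_lit 7) (nat_lit 45) (nat_lit 9) (nat_lit 9) (nat_lit 0) (nat_lit 18) TL2 CL1 CL2 = true := by decide +kernel
def sc2_18 : stCov (nat_lit 1) (nat_lit 0) Rl.nil C2_18 = true := by decide +kernel
def wf2_19 : wfC (nat_lit 45) (nat_lit 9) C2_19 = true := by decide +kernel
def rf2_19 : rfCk (nat_lit 61) (nat_lit 7) (nat_lit 45) (nat_lit 9) (nat_lit 9) (nat_lit 0) (nat_lit 19) TL2 CL1 CL2 = true := by decide +kernel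
def st2_19_0 : starCk (nat_lit 45) (nat_lit 9) (nat_lit 1) (nat_lit 4) (nat_lit 8) (nat_lit 88) (nat_lit 256) C2_19 = true := by decide +kernel
def sc2_19 : stCov (nat_lit 2) (nat_lit 88) (Rl.cons (nat_lit 88) (nat_lit 8) Rl.nil) C2_19 = true := by decide +kernel
def wf2_20 : wfC (nat_lit 45) (nat_lit 9) C2_20 = true := by decide +kernel
def rf2_20 : rfCk (nat_lit 61) (nat_lit 7) (nat_lit 45) (nat_lit 9) (nat_lit 9) (nat_lit 0) (nat_lit 20) TL2 CL1 CL2 = true := by decide +kernel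
def sc2_20 : stCov (nat_lit 1) (nat_lit 0) Rl.nil C2_20 = true := by decide +kernel
def wf2_21 : wfC (nat_lit 45) (nat_lit 9) C2_21 = true := by decide +kernel
def rf2_21 : rfCk (nat_lit 61) (nat_lit 7) (nat_lit 45) (nat_lit 9) (nat_lit 9) (nat_lit 0) (nat_lit 21) TL2 CL1 CL2 = true := by decide +kernel
def st2_21_0 : starCk (nat_lit 45) (nat_lit 9) (nat_lit 1) (nat_lit 4) (nat_lit 4) (nat_lit 32) (nat_lit 256) C2_21 = true := by decide +kernel
def sc2_21 : stCov (nat_lit 2) (nat_lit 32) (Rl.cons (nat_lit 32) (nat_lit 4) Rl.nil) C2_21 = true := by decide +kernel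
def wf2_22 : wfC (nat_lit 45) (nat_lit 9) C2_22 = true := by decide +kernel
def rf2_22 : rfCk (nat_lit 61) (nat_lit 7) (nat_lit 45) (nat_lit 9) (nat_lit 9) (nat_lit 0) (nat_lit 22) TL2 CL1 CL2 = true := by decide +kernel
def sc2_22 : stCov (nat_lit 1) (nat_lit 0) Rl.nil C2_22 = true := by decide +kernel
def wf2_23 : wfC (nat_lit 45) (nat_lit 9) C2_23 = true := by decide +kernel
def rf2_23 : rfCk (nat_lit 61) (nat_lit 7) (nat_lit 45) (nat_lit 9) (nat_lit 9) (nat_lit 0) (nat_lit 23) TL2 CL1 CL2 = true := by decide +kernel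
def sc2_23 : stCov (nat_lit 1) (nat_lit 0) Rl.nil C2_23 = true := by decide +kernel
def wf2_24 : wfC (nat_lit 45) (nat_lit 9) C2_24 = true := by decide +kernel
def rf2_24 : rfCk (nat_lit 61) (nat_lit 7) (nat_lit 45) (nat_lit 9) (nat_lit 9) (nat_lit 0) (nat_lit 24) TL2 CL1 CL2 = true := by decide +kernel
def st2_24_0 : starCk (nat_lit 45) (nat_lit 9) (nat_lit 1) (nat_lit 4) (nat_lit 1) (nat_lit 0) (nat_lit 1) C2_24 = true := by decide +kernel
def sc2_24 : stCov (nat_lit 0) (nat_lit 0) (Rl.cons (nat_lit 0) (nat_lit 1) Rl.nil) C2_24 = true := by decide +kernel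
def wf2_25 : wfC (nat_lit 45) (nat_lit 9) C2_25 = true := by decide +kernel
def rf2_25 : rfCk (nat_lit 61) (nat_lit 7) (nat_lit 45) (nat_lit 9) (nat_lit 9) (nat_lit 0) (nat_lit 25) TL2 CL1 CL2 = true := by decide +kernel
def st2_25_0 : starCk (nat_lit 45) (nat_lit 9) (nat_lit 1) (nat_lit 4) (nat_lit 20) (nat_lit 40) (nat_lit 4096) C2_25 = true := by decide +kernel
def sc2_25 : stCov (nat_lit 3) (nat_lit 40) (Rl.cons (nat_lit 40) (nat_lit 20) Rl.nil) C2_25 = true := by decide +kernel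
def wf2_26 : wfC (nat_lit 45) (nat_lit 9) C2_26 = true := by decide +kernel
def rf2_26 : rfCk (nat_lit 61) (nat_lit 7) (nat_lit 45) (nat_lit 9) (nat_lit 9) (nat_lit 0) (nat_lit 26) TL2 CL1 CL2 = true := by decide +kernel
def st2_26_0 : starCk (nat_lit 45) (nat_lit 9) (nat_lit 1) (nat_lit 4) (nat_lit 38) (nat_lit 69) (nat_lit 256) C2_26 = true := by decide +kernel
def sc2_26 : stCov (nat_lit 2) (nat_lit 69) (Rl.cons (nat_lit 69) (nat_lit 38) Rl.nil) C2_26 = true := by decide +kernel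
def wf2_27 : wfC (nat_lit 45) (nat_lit 9) C2_27 = true := by decide +kernel
def rf2_27 : rfCk (nat_lit 61) (nat_lit 7) (nat_lit 45) (nat_lit 9) (nat_lit 9) (nat_lit 0) (nat_lit 27) TL2 CL1 CL2 = true := by decide +kernel
def st2_27_0 : starCk (nat_lit 45) (nat_lit 9) (nat_lit 1) (nat_lit 4) (nat_lit 4) (nat_lit 12) (nat_lit 4096) C2_27 = true := by decide +kernel
def sc2_27 : stCov (nat_lit 3) (nat_lit 12) (Rl.cons (nat_lit 12) (nat_lit 4) Rl.nil) C2_27 = true := by decide +kernel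
def wf2_28 : wfC (nat_lit 45) (nat_lit 9) C2_28 = true := by decide +kernel
def rf2_28 : rfCk (nat_lit 61) (nat_lit 7) (nat_lit 45) (nat_lit 9) (nat_lit 9) (nat_lit 0) (nat_lit 28) TL2 CL1 CL2 = true := by decide +kernel
def st2_28_0 : starCk (nat_lit 45) (nat_lit 9) (nat_lit 1) (nat_lit 4) (nat_lit 21) (nat_lit 69) (nat_lit 16) C2_28 = true := by decide +kernel
def sc2_28 : stCov (nat_lit 1) (nat_lit 69) (Rl.cons (nat_lit 69) (nat_lit 21) Rl.nil) C2_28 = true := by decide +kernel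
def wf2_29 : wfC (nat_lit 45) (nat_lit 9) C2_29 = true := by decide +kernel
def rf2_29 : rfCk (nat_lit 61) (nat_lit 7) (nat_lit 45) (nat_lit 9) (nat_lit 9) (nat_lit 0) (nat_lit 29) TL2 CL1 CL2 = true := by decide +kernel
def st2_29_0 : starCk (nat_lit 45) (nat_lit 9) (nat_lit 1) (nat_lit 4) (nat_lit 8) (nat_lit 32) (nat_lit 4096) C2_29 = true := by decide +kernel
def sc2_29 : stCov (nat_lit 3) (nat_lit 32) (Rl.cons (nat_lit 32) (nat_lit 8) Rl.nil) C2_29 = true := by decide +kernel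
def wf2_30 : wfC (nat_lit 45) (nat_lit 9) C2_30 = true := by decide +kernel
def rf2_30 : rfCk (nat_lit 61) (nat_lit 7) (nat_lit 45) (nat_lit 9) (nat_lit 9) (nat_lit 0) (nat_lit 30) TL2 CL1 CL2 = true := by decide +kernel
def st2_30_0 : starCk (nat_lit 45) (nat_lit 9) (nat_lit 1) (nat_lit 4) (nat_lit 38) (nat_lit 69) (nat_lit 256) C2_30 = true := by decide +kernel
def sc2_30 : stCov (nat_lit 2) (nat_lit 69) (Rl.cons (nat_lit 69) (nat_lit 38) Rl.nil) C2_30 = true := by decide +kernel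
def wf2_31 : wfC (nat_lit 45) (nat_lit 9) C2_31 = true := by decide +kernel
def rf2_31 : rfCk (nat_lit 61) (nat_lit 7) (nat_lit 45) (nat_lit 9) (nat_lit 9) (nat_lit 0) (nat_lit 31) TL2 CL1 CL2 = true := by decide +kernel
def st2_31_0 : starCk (nat_lit 45) (nat_lit 9) (nat_lit 1) (nat_lit 4) (nat_lit 8) (nat_lit 40) (nat_lit 4096) C2_31 = true := by decide +kernel
def sc2_31 : stCov (nat_lit 3) (nat_lit 40) (Rl.cons (nat_lit 40) (nat_lit 8) Rl.nil) C2_31 = true := by decide +kernel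
def wf2_32 : wfC (nat_lit 45) (nat_lit 9) C2_32 = true := by decide +kernel
def rf2_32 : rfCk (nat_lit 61) (nat_lit 7) (nat_lit 45) (nat_lit 9) (nat_lit 9) (nat_lit 0) (nat_lit 32) TL2 CL1 CL2 = true := by decide +kernel
def st2_32_0 : starCk (nat_lit 45) (nat_lit 9) (nat_lit 1) (nat_lit 4) (nat_lit 3) (nat_lit 20) (nat_lit 16) C2_32 = true := by decide +kernel
def sc2_32 : stCov (nat_lit 1) (nat_lit 20) (Rl.cons (nat_lit 20) (nat_lit 3) Rl.nil) C2_32 = true := by decide +kernel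
def wf2_33 : wfC (nat_lit 45) (nat_lit 9) C2_33 = true := by decide +kernel
def rf2_33 : rfCk (nat_lit 61) (nat_lit 7) (nat_lit 45) (nat_lit 9) (nat_lit 9) (nat_lit 0) (nat_lit 33) TL2 CL1 CL2 = true := by decide +kernel
def st2_33_0 : starCk (nat_lit 45) (nat_lit 9) (nat_lit 1) (nat_lit 4) (nat_lit 4) (nat_lit 12) (nat_lit 4096) C2_33 = true := by decide +kernel
def sc2_33 : stCov (nat_lit 3) (nat_lit 12) (Rl.cons (nat_lit 12) (nat_lit 4) Rl.nil) C2_33 = true := by decide +kernel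
def ti2_0 : tileCk (nat_lit 45) (nat_lit 9) (nat_lit 2) (nat_lit 4) (nat_lit 72) (nat_lit 11) (nat_lit 34) ZL2_0 CL2 = true := by decide +kernel
def zl2_0 : zlOK (nat_lit 72) ZL2_0 = true := by decide +kernel
def ti2_1 : tileCk (nat_lit 45) (nat_lit 9) (nat_lit 2) (nat_lit 4) (nat_lit 198) (nat_lit 11) (nat_lit 34) ZL2_1 CL2 = true := by decide +kernel
def zl2_1 : zlOK (nat_lit 198) ZL2_1 = true := by decide +kernel
def tc2_0 : tiCov (nat_lit 1) (nat_lit 0) ZZ2 C2_0 = true := by decide +kernel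
def tc2_1 : tiCov (nat_lit 1) (nat_lit 1) ZZ2 C2_1 = true := by decide +kernel
def tc2_2 : tiCov (nat_lit 1) (nat_lit 2) ZZ2 C2_2 = true := by decide +kernel
def tc2_3 : tiCov (nat_lit 1) (nat_lit 3) ZZ2 C2_3 = true := by decide +kernel
def tc2_4 : tiCov (nat_lit 1) (nat_lit 4) ZZ2 C2_4 = true := by decide +kernel
def tc2_5 : tiCov (nat_lit 1) (nat_lit 5) ZZ2 C2_5 = true := by decide +kernel
def tc2_6 : tiCov (nat_lit 1) (nat_lit 6) ZZ2 C2_6 = true := by decide +kernel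
def tc2_7 : tiCov (nat_lit 1) (nat_lit 7) ZZ2 C2_7 = true := by decide +kernel
def tc2_8 : tiCov (nat_lit 1) (nat_lit 8) ZZ2 C2_8 = true := by decide +kernel
def tc2_9 : tiCov (nat_lit 1) (nat_lit 9) ZZ2 C2_9 = true := by decide +kernel
def tc2_10 : tiCov (nat_lit 1) (nat_lit 10) ZZ2 C2_10 = true := by decide +kernel
def tc2_11 : tiCov (nat_lit 1) (nat_lit 11) ZZ2 C2_11 = true := by decide +kernel
def tc2_12 : tiCov (nat_lit 1) (nat_lit 12) ZZ2 C2_12 = true := by decide +kernel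
def tc2_13 : tiCov (nat_lit 1) (nat_lit 13) ZZ2 C2_13 = true := by decide +kernel
def tc2_14 : tiCov (nat_lit 1) (nat_lit 14) ZZ2 C2_14 = true := by decide +kernel
def tc2_15 : tiCov (nat_lit 1) (nat_lit 15) ZZ2 C2_15 = true := by decide +kernel
def tc2_16 : tiCov (nat_lit 1) (nat_lit 16) ZZ2 C2_16 = true := by decide +kernel
def tc2_17 : tiCov (nat_lit 1) (nat_lit 17) ZZ2 C2_17 = true := by decide +kernel
def tc2_18 : tiCov (nat_lit 1) (nat_lit 18) ZZ2 C2_18 = true := by decide +kernel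
def tc2_19 : tiCov (nat_lit 1) (nat_lit 19) ZZ2 C2_19 = true := by decide +kernel
def tc2_20 : tiCov (nat_lit 1) (nat_lit 20) ZZ2 C2_20 = true := by decide +kernel
def tc2_21 : tiCov (nat_lit 1) (nat_lit 21) ZZ2 C2_21 = true := by decide +kernel
def tc2_22 : tiCov (nat_lit 1) (nat_lit 22) ZZ2 C2_22 = true := by decide +kernel
def tc2_23 : tiCov (nat_lit 1) (nat_lit 23) ZZ2 C2_23 = true := by decide +kernel
def tc2_24 : tiCov (nat_lit 1) (nat_lit 24) ZZ2 C2_24 = true := by decide +kernel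
def tc2_25 : tiCov (nat_lit 1) (nat_lit 25) ZZ2 C2_25 = true := by decide +kernel
def tc2_26 : tiCov (nat_lit 1) (nat_lit 26) ZZ2 C2_26 = true := by decide +kernel
def tc2_27 : tiCov (nat_lit 1) (nat_lit 27) ZZ2 C2_27 = true := by decide +kernel
def tc2_28 : tiCov (nat_lit 1) (nat_lit 28) ZZ2 C2_28 = true := by decide +kernel
def tc2_29 : tiCov (nat_lit 1) (nat_lit 29) ZZ2 C2_29 = true := by decide +kernel
def tc2_30 : tiCov (nat_lit 1) (nat_lit 30) ZZ2 C2_30 = true := by decide +kernel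
def tc2_31 : tiCov (nat_lit 1) (nat_lit 31) ZZ2 C2_31 = true := by decide +kernel
def tc2_32 : tiCov (nat_lit 1) (nat_lit 32) ZZ2 C2_32 = true := by decide +kernel
def tc2_33 : tiCov (nat_lit 1) (nat_lit 33) ZZ2 C2_33 = true := by decide +kernel
def de2_0 : deadCk (nat_lit 45) (nat_lit 9) C2_0 = true := by decide +kernel
def de2_1 : deadCk (nat_lit 45) (nat_lit 9) C2_1 = true := by decide +kernel
def de2_2 : deadCk (nat_lit 45) (nat_lit 9) C2_2 = true := by decide +kernel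
def de2_3 : deadCk (nat_lit 45) (nat_lit 9) C2_3 = true := by decide +kernel
def de2_4 : deadCk (nat_lit 45) (nat_lit 9) C2_4 = true := by decide +kernel
def de2_5 : deadCk (nat_lit 45) (nat_lit 9) C2_5 = true := by decide +kernel
def de2_6 : deadCk (nat_lit 45) (nat_lit 9) C2_6 = true := by decide +kernel
def de2_7 : deadCk (nat_lit 45) (nat_lit 9) C2_7 = true := by decide +kernel
def de2_8 : deadCk (nat_lit 45) (nat_lit 9) C2_8 = true := by decide +kernel
def de2_9 : deadCk (nat_lit 45) (nat_lit 9) C2_9 = true := by decide +kernel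
def de2_10 : deadCk (nat_lit 45) (nat_lit 9) C2_10 = true := by decide +kernel
def de2_11 : deadCk (nat_lit 45) (nat_lit 9) C2_11 = true := by decide +kernel
def de2_12 : deadCk (nat_lit 45) (nat_lit 9) C2_12 = true := by decide +kernel
def de2_13 : deadCk (nat_lit 45) (nat_lit 9) C2_13 = true := by decide +kernel
def de2_14 : deadCk (nat_lit 45) (nat_lit 9) C2_14 = true := by decide +kernel
def de2_15 : deadCk (nat_lit 45) (nat_lit 9) C2_15 = true := by decide +kernel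
def de2_16 : deadCk (nat_lit 45) (nat_lit 9) C2_16 = true := by decide +kernel
def de2_17 : deadCk (nat_lit 45) (nat_lit 9) C2_17 = true := by decide +kernel
def de2_18 : deadCk (nat_lit 45) (nat_lit 9) C2_18 = true := by decide +kernel
def de2_19 : deadCk (nat_lit 45) (nat_lit 9) C2_19 = true := by decide +kernel
def de2_20 : deadCk (nat_lit 45) (nat_lit 9) C2_20 = true := by decide +kernel
def de2_21 : deadCk (nat_lit 45) (nat_lit 9) C2_21 = true := by decide +kernel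
def de2_22 : deadCk (nat_lit 45) (nat_lit 9) C2_22 = true := by decide +kernel
def de2_23 : deadCk (nat_lit 45) (nat_lit 9) C2_23 = true := by decide +kernel
def de2_24 : deadCk (nat_lit 45) (nat_lit 9) C2_24 = true := by decide +kernel
def de2_25 : deadCk (nat_lit 45) (nat_lit 9) C2_25 = true := by decide +kernel
def de2_26 : deadCk (nat_lit 45) (nat_lit 9) C2_26 = true := by decide +kernel
def de2_27 : deadCk (nat_lit 45) (nat_lit 9) C2_27 = true := by decide +kernel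
def de2_28 : deadCk (nat_lit 45) (nat_lit 9) C2_28 = true := by decide +kernel
def de2_29 : deadCk (nat_lit 45) (nat_lit 9) C2_29 = true := by decide +kernel
def de2_30 : deadCk (nat_lit 45) (nat_lit 9) C2_30 = true := by decide +kernel
def de2_31 : deadCk (nat_lit 45) (nat_lit 9) C2_31 = true := by decide +kernel
def de2_32 : deadCk (nat_lit 45) (nat_lit 9) C2_32 = true := by decide +kernel
def de2_33 : deadCk (nat_lit 45) (nat_lit 9) C2_33 = true := by decide +kernel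

end Pool.Agent.NNr.R11_1_1_2
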